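import Pool.Agent.R489.HB.Stm

/-!
# Piece EX4 of project HB: an inner vertex of degree four
-/

set_option autoImplicit false

namespace Pool.Agent.R255.HB

open Finset Pool.Agent.R489.HB

section

variable {W : Type} [DecidableEq W]

lemma mem_edg {Φ : Finset (Finset W)} {e : Finset W} :
    e ∈ edg Φ ↔ ∃ f ∈ Φ, e ⊆ f ∧ e.card = 2 := by
  simp [edg, Finset.mem_powersetCard]

lemma mem_fc {Φ : Finset (Finset W)} {e f : Finset W} : f ∈ fc Φ e ↔ f ∈ Φ ∧ e ⊆ f := by
  simp [fc]

lemma mem_vts {Φ : Finset (Finset W)} {v : W} : v ∈ vts Φ ↔ ∃ f ∈ Φ, v ∈ f := by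
  simp [vts]

lemma pair_edg {Φ : Finset (Finset W)} {f : Finset W} {x y : W} (hf : f ∈ Φ) (hx : x ∈ f)
    (hy : y ∈ f) (hxy : x ≠ y) : {x, y} ∈ edg Φ := by
  rw [mem_edg]
  refine ⟨f, hf, ?_, Finset.card_pair hxy⟩
  intro z hz
  rw [Finset.mem_insert, Finset.mem_singleton] at hz
  rcases hz with rfl | rfl
  · exact hx
  · exact hy

lemma mono_pair {a : W → Fin 3} {x y : W} (h : a x = a y) : mono a {x, y} := by
  intro p hp q hq
  rw [Finset.mem_insert, Finset.mem_singleton] at hp hq
  rcases hp with rfl | rfl <;> rcases hq with rfl | rfl <;> simp [h]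

/-- no face at `v` contains an edge in a class -/
def Fine (Φ : Finset (Finset W)) (a : W → Fin 3) (v : W) : Prop :=
  ∀ f ∈ Φ, v ∈ f → Set.InjOn a (f : Set W)

lemma not_fine {Φ : Finset (Finset W)} {T : Finset W} {a : W → Fin 3} {v : W}
    (hm : ∀ e ∈ edg Φ, mono a e → e ⊆ T) (hv : v ∉ T)
    (h : ¬ Fine Φ a v) : ∃ f ∈ Φ, ∃ x y, v ∈ f ∧ x ∈ f ∧ y ∈ f ∧ x ≠ y ∧ a x = a y ∧ x ∈ T ∧
      y ∈ T ∧ v ≠ x ∧ v ≠ y := by
  unfold Fine at h
  push Not at h
  obtain ⟨f, hf, hvf, hi⟩ := h
  unfold Set.InjOn at hi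
  push Not at hi
  obtain ⟨x, hx, y, hy, hxy, hne⟩ := hi
  have hx' : x ∈ f := hx
  have hy' : y ∈ f := hy
  have h1 := hm _ (pair_edg hf hx' hy' hne) (mono_pair hxy)
  have hxT : x ∈ T := h1 (by simp)
  have hyT : y ∈ T := h1 (by simp)
  exact ⟨f, hf, x, y, hvf, hx', hy', hne, hxy, hxT, hyT, fun h => hv (h ▸ hxT),
    fun h => hv (h ▸ hyT)⟩

lemma ex_unique {Φ : Finset (Finset W)} {T : Finset W} {a : W → Fin 3} (hΦ : IsTri Φ)
    (hT : T ∈ Φ) (hm : ∀ e ∈ edg Φ, mono a e → e ⊆ T) (hTm : ¬ mono a T) {v v' : W}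
    (hv : v ∉ T) (hv' : v' ∉ T) (h : ¬ Fine Φ a v) (h' : ¬ Fine Φ a v') : v = v' := by
  obtain ⟨f, hf, x, y, hvf, hxf, hyf, hxy, haxy, hxT, hyT, hvx, hvy⟩ := not_fine hm hv h
  obtain ⟨f', hf', x', y', hvf', hxf', hyf', hxy', haxy', hxT', hyT', hvx', hvy'⟩ :=
    not_fine hm hv' h'
  -- the third vertex of T
  have hcT := hΦ.three T hT
  have hsub : ({x, y} : Finset W) ⊆ T := by
    intro z hz
    rw [Finset.mem_insert, Finset.mem_singleton] at hz
    rcases hz with rfl | rfl
    · exact hxT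
    · exact hyT
  have hcd : (T \ {x, y}).card = 1 := by
    rw [Finset.card_sdiff_of_subset hsub, hcT, Finset.card_pair hxy]
  obtain ⟨t, ht⟩ := Finset.card_eq_one.mp hcd
  have hTt : ∀ z ∈ T, z = x ∨ z = y ∨ z = t := by
    intro z hz
    by_cases hz1 : z ∈ ({x, y} : Finset W)
    · rw [Finset.mem_insert, Finset.mem_singleton] at hz1
      tauto
    · have : z ∈ T \ {x, y} := Finset.mem_sdiff.mpr ⟨hz, hz1⟩
      rw [ht, Finset.mem_singleton] at this
      tauto
  have hat : a t ≠ a x := by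
    intro hat
    apply hTm
    intro p hp q hq
    rcases hTt p hp with rfl | rfl | rfl <;> rcases hTt q hq with rfl | rfl | rfl <;>
      simp_all
  have hpair : ({x', y'} : Finset W) = {x, y} := by
    rcases hTt x' hxT' with h1 | h1 | h1 <;> rcases hTt y' hyT' with h2 | h2 | h2
    · exact absurd (h1.trans h2.symm) hxy'
    · rw [h1, h2]
    · exfalso; apply hat; rw [← h2, ← haxy', h1]
    · rw [h1, h2, Finset.pair_comm]
    · exact absurd (h1.trans h2.symm) hxy'
    · exfalso; apply hat; rw [← h2, ← haxy', h1, haxy]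
    · exfalso; apply hat; rw [← h1, haxy', h2]
    · exfalso; apply hat; rw [← h1, haxy', h2, haxy]
    · exact absurd (h1.trans h2.symm) hxy'
  have hcard := hΦ.two {x, y} (pair_edg hT hxT hyT hxy)
  have hTf : T ≠ f := fun h => hv (h ▸ hvf)
  have hTf' : T ≠ f' := fun h => hv' (h ▸ hvf')
  have hff : f = f' := by
    by_contra hne
    have hs : ({T, f, f'} : Finset (Finset W)) ⊆ fc Φ {x, y} := by
      intro g hg
      rw [Finset.mem_insert, Finset.mem_insert, Finset.mem_singleton] at hg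
      rw [mem_fc]
      rcases hg with rfl | rfl | rfl
      · exact ⟨hT, hsub⟩
      · refine ⟨hf, ?_⟩
        intro z hz
        rw [Finset.mem_insert, Finset.mem_singleton] at hz
        rcases hz with rfl | rfl
        · exact hxf
        · exact hyf
      · refine ⟨hf', ?_⟩
        rw [← hpair]
        intro z hz
        rw [Finset.mem_insert, Finset.mem_singleton] at hz
        rcases hz with rfl | rfl
        · exact hxf'
        · exact hyf'
    have h3 : ({T, f, f'} : Finset (Finset W)).card = 3 := by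
      rw [Finset.card_insert_of_notMem, Finset.card_pair hne]
      rw [Finset.mem_insert, Finset.mem_singleton]
      tauto
    have := Finset.card_le_card hs
    omega
  subst hff
  -- v and v' are the third vertex of f
  have hs2 : ({x, y, v} : Finset W) ⊆ f := by
    intro z hz
    rw [Finset.mem_insert, Finset.mem_insert, Finset.mem_singleton] at hz
    rcases hz with rfl | rfl | rfl
    · exact hxf
    · exact hyf
    · exact hvf
  have hc3 : ({x, y, v} : Finset W).card = 3 := by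
    rw [Finset.card_insert_of_notMem, Finset.card_pair (Ne.symm hvy)]
    rw [Finset.mem_insert, Finset.mem_singleton]
    have := hvx.symm
    tauto
  have heq : ({x, y, v} : Finset W) = f :=
    Finset.eq_of_subset_of_card_le hs2 (by rw [hc3, hΦ.three f hf])
  have hv'f : v' ∈ ({x, y, v} : Finset W) := heq ▸ hvf'
  rw [Finset.mem_insert, Finset.mem_insert, Finset.mem_singleton] at hv'f
  rcases hv'f with h1 | h1 | h1
  · exact absurd (h1 ▸ hxT) hv'
  · exact absurd (h1 ▸ hyT) hv'
  · exact h1.symm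

/-- neighbours of `v` in the class `j` -/
def nbh (Φ : Finset (Finset W)) (a : W → Fin 3) (v : W) (j : Fin 3) : Finset W :=
  (vts Φ).filter (fun b => {v, b} ∈ edg Φ ∧ a b = j)

lemma exists_class {Φ : Finset (Finset W)} {a : W → Fin 3} {v : W} (hΦ : IsTri Φ)
    (hfi : Fine Φ a v) {f : Finset W} (hf : f ∈ Φ) (hvf : v ∈ f) {j : Fin 3} (hj : j ≠ a v) :
    ∃ b ∈ f, b ∈ nbh Φ a v j := by
  have hinj := hfi f hf hvf
  have hcard : (f.image a).card = 3 := by
    rw [Finset.card_image_of_injOn hinj, hΦ.three f hf]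
  have huniv : f.image a = Finset.univ := Finset.eq_univ_of_card _ (by rw [hcard]; rfl)
  have hj' : j ∈ f.image a := by rw [huniv]; exact Finset.mem_univ _
  obtain ⟨b, hb, hab⟩ := Finset.mem_image.mp hj'
  refine ⟨b, hb, ?_⟩
  unfold nbh
  rw [Finset.mem_filter]
  refine ⟨mem_vts.mpr ⟨f, hf, hb⟩, pair_edg hf hvf hb ?_, hab⟩
  rintro rfl
  exact hj hab.symm

lemma two_card {Φ : Finset (Finset W)} {a : W → Fin 3} {v : W} (hΦ : IsTri Φ)
    (hfi : Fine Φ a v) {j : Fin 3} (hj : j ≠ a v) :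
    (nbh Φ a v j).card * 2 = (fc Φ {v}).card * 1 := by
  apply Finset.card_mul_eq_card_mul (fun (b : W) (f : Finset W) => b ∈ f)
  · intro b hb
    unfold nbh at hb
    rw [Finset.mem_filter] at hb
    rw [← hΦ.two _ hb.2.1]
    congr 1
    ext f
    simp only [Finset.bipartiteAbove, Finset.mem_filter, mem_fc, Finset.singleton_subset_iff,
      Finset.insert_subset_iff]
    tauto
  · intro f hf
    rw [mem_fc, Finset.singleton_subset_iff] at hf
    obtain ⟨b, hbf, hb⟩ := exists_class hΦ hfi hf.1 hf.2 hj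
    rw [Finset.card_eq_one]
    refine ⟨b, ?_⟩
    ext c
    simp only [Finset.bipartiteBelow, Finset.mem_filter, Finset.mem_singleton]
    constructor
    · rintro ⟨hc, hcf⟩
      apply hfi f hf.1 hf.2 hcf hbf
      unfold nbh at hc hb
      rw [Finset.mem_filter] at hc hb
      rw [hc.2.2, hb.2.2]
    · rintro rfl
      exact ⟨hb, hbf⟩

lemma d4_of_fine {Φ : Finset (Finset W)} {T : Finset W} {a : W → Fin 3} {v : W} (hΦ : IsTri Φ)
    (hNF : NF Φ) (hv : v ∈ vts Φ) (hvT : v ∉ T) (hfi : Fine Φ a v)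
    (h4 : (fc Φ {v}).card = 4) : ∃ y1 y2 z1 z2 : W, D4 Φ T a v y1 y2 z1 z2 := by
  have hcl : ∀ c : Fin 3, ∃ j k : Fin 3, j ≠ c ∧ k ≠ c ∧ j ≠ k := by decide
  obtain ⟨j, k, hj, hk, hjk⟩ := hcl (a v)
  have hNj : (nbh Φ a v j).card = 2 := by have := two_card hΦ hfi hj; omega
  have hNk : (nbh Φ a v k).card = 2 := by have := two_card hΦ hfi hk; omega
  obtain ⟨y1, y2, hy, hNy⟩ := Finset.card_eq_two.mp hNj
  obtain ⟨z1, z2, hz, hNz⟩ := Finset.card_eq_two.mp hNk
  have hmem : ∀ (i : Fin 3) (b : W), b ∈ nbh Φ a v i → {v, b} ∈ edg Φ ∧ a b = i := by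
    intro i b hb
    unfold nbh at hb
    exact (Finset.mem_filter.mp hb).2
  have h1 := hmem j y1 (by rw [hNy]; simp)
  have h2 := hmem j y2 (by rw [hNy]; simp)
  have h3 := hmem k z1 (by rw [hNz]; simp)
  have h5 := hmem k z2 (by rw [hNz]; simp)
  refine ⟨y1, y2, z1, z2, hv, hvT, hy, hz, h1.2.trans h2.2.symm, h3.2.trans h5.2.symm, ?_, ?_,
    ?_, ?_, ?_⟩
  · rw [h1.2]; exact hj.symm
  · rw [h3.2]; exact hk.symm
  · rw [h1.2, h3.2]; exact hjk
  · apply Finset.eq_of_subset_of_card_le
    · intro f hf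
      rw [mem_fc, Finset.singleton_subset_iff] at hf
      obtain ⟨b, hbf, hb⟩ := exists_class hΦ hfi hf.1 hf.2 hj
      obtain ⟨c, hcf, hc⟩ := exists_class hΦ hfi hf.1 hf.2 hk
      have hvb : v ≠ b := by rintro rfl; exact hj (hmem _ _ hb).2.symm
      have hvc : v ≠ c := by rintro rfl; exact hk (hmem _ _ hc).2.symm
      have hbc : b ≠ c := by
        rintro rfl
        exact hjk ((hmem _ _ hb).2.symm.trans (hmem _ _ hc).2)
      have hfe : f = {v, b, c} := by
        symm
        apply Finset.eq_of_subset_of_card_le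
        · intro z hz
          rw [Finset.mem_insert, Finset.mem_insert, Finset.mem_singleton] at hz
          rcases hz with rfl | rfl | rfl
          · exact hf.2
          · exact hbf
          · exact hcf
        · rw [hΦ.three f hf.1, Finset.card_insert_of_notMem, Finset.card_pair hbc]
          rw [Finset.mem_insert, Finset.mem_singleton]
          tauto
      rw [hNy, Finset.mem_insert, Finset.mem_singleton] at hb
      rw [hNz, Finset.mem_insert, Finset.mem_singleton] at hc
      rw [hfe]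
      rcases hb with rfl | rfl <;> rcases hc with rfl | rfl <;> simp
    · rw [h4]
      exact Finset.card_le_four
  · intro hyy
    have hface : ({v, y1, y2} : Finset W) ∈ Φ := by
      apply hNF
      · rw [Finset.card_insert_of_notMem, Finset.card_pair hy]
        rw [Finset.mem_insert, Finset.mem_singleton]
        rintro (h | h)
        · rw [← h] at h1; exact hj h1.2.symm
        · rw [← h] at h2; exact hj h2.2.symm
      · intro e he
        rw [Finset.mem_powersetCard] at he
        obtain ⟨p, q, hpq, rfl⟩ := Finset.card_eq_two.mp he.2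
        have hp : p ∈ ({v, y1, y2} : Finset W) := he.1 (by simp)
        have hq : q ∈ ({v, y1, y2} : Finset W) := he.1 (by simp)
        rw [Finset.mem_insert, Finset.mem_insert, Finset.mem_singleton] at hp hq
        rcases hp with rfl | rfl | rfl <;> rcases hq with rfl | rfl | rfl
        · exact absurd rfl hpq
        · exact h1.1
        · exact h2.1
        · rw [Finset.pair_comm]; exact h1.1
        · exact absurd rfl hpq
        · exact hyy
        · rw [Finset.pair_comm]; exact h2.1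
        · rw [Finset.pair_comm]; exact hyy
        · exact absurd rfl hpq
    have hinj := hfi _ hface (by simp)
    apply hy
    apply hinj (by simp) (by simp)
    rw [h1.2, h2.2]

end

theorem EX4 : S_DG3 → S_DG4 → S_EUL → S_EX4 := by
  classical
  intro hDG3 hDG4 hEUL W _ Φ T a hΦ hT hNF h5 hm hTm
  obtain ⟨-, hdeg, hsum⟩ := hDG3 W Φ hΦ
  have h4 := hDG4 W Φ hΦ hNF h5
  have heul := hEUL W Φ hΦ
  by_contra hcon
  have key : ∀ v ∈ vts Φ, v ∉ T → Fine Φ a v → 6 ≤ dg Φ v := by
    intro v hv hvT hfi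
    have hcl : ∀ c : Fin 3, ∃ j : Fin 3, j ≠ c := by decide
    obtain ⟨j, hj⟩ := hcl (a v)
    have h2 := two_card hΦ hfi hj
    have hd := (hdeg v hv).2
    have h44 := h4 v hv
    by_contra hlt
    have h4' : (fc Φ {v}).card = 4 := by omega
    obtain ⟨y1, y2, z1, z2, hD⟩ := d4_of_fine (T := T) hΦ hNF hv hvT hfi h4'
    exact hcon ⟨v, y1, y2, z1, z2, hD⟩
  -- exceptional vertices
  set Ex : Finset W := (vts Φ).filter (fun v => v ∉ T ∧ ¬ Fine Φ a v) with hEx
  have hEx1 : Ex.card ≤ 1 := by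
    rw [Finset.card_le_one]
    intro v hv w hw
    rw [hEx, Finset.mem_filter] at hv hw
    exact ex_unique hΦ hT hm hTm hv.2.1 hw.2.1 hv.2.2 hw.2.2
  have hTU : (T ∪ Ex).card ≤ 4 := by
    have := Finset.card_union_le T Ex
    have := hΦ.three T hT
    omega
  have hlow : ∀ v ∈ vts Φ, (6 : ℤ) - (if v ∈ T ∪ Ex then 2 else 0) ≤ (dg Φ v : ℤ) := by
    intro v hv
    split_ifs with hvE
    · have := h4 v hv; omega
    · rw [Finset.mem_union] at hvE
      push Not at hvE
      have hfi : Fine Φ a v := by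
        by_contra hnf
        exact hvE.2 (by rw [hEx, Finset.mem_filter]; exact ⟨hv, hvE.1, hnf⟩)
      have := key v hv hvE.1 hfi
      omega
  have hS := Finset.sum_le_sum hlow
  rw [Finset.sum_sub_distrib, Finset.sum_const, nsmul_eq_mul] at hS
  have hsum2 : ∑ v ∈ vts Φ, (if v ∈ T ∪ Ex then (2 : ℤ) else 0) ≤ 8 := by
    rw [← Finset.sum_filter, Finset.sum_const, nsmul_eq_mul]
    have hle : ((vts Φ).filter (fun v => v ∈ T ∪ Ex)).card ≤ 4 :=
      le_trans (Finset.card_le_card (fun v hv => (Finset.mem_filter.mp hv).2)) hTU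
    have : (((vts Φ).filter (fun v => v ∈ T ∪ Ex)).card : ℤ) ≤ 4 := by exact_mod_cast hle
    linarith
  have hsum3 : ∑ v ∈ vts Φ, (dg Φ v : ℤ) = 2 * ((edg Φ).card : ℤ) := by exact_mod_cast hsum
  rw [hsum3] at hS
  have heul' : ((edg Φ).card : ℤ) + 6 = 3 * ((vts Φ).card : ℤ) := by exact_mod_cast heul
  linarith

end Pool.Agent.R255.HB
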